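import Pool.Agent.RHO.Stmts4

/-! # MP_ca8ef3_an, stage 3: row CPL (complement of a space of affine functions) -/

set_option autoImplicit false

namespace Pool.Agent.RHO.H48d

open Finset

theorem neg_fn {ι : Type} (y : Fn ι) : -y = y := by
  funext z
  have h : ∀ a : ZMod 2, -a = a := by decide
  exact h (y z)

theorem cpl : Pool.Agent.RHO.CPLStmt := by
  intro ι _ _ Λ hΛ
  classical
  set U : Submodule (ZMod 2) (RM ι 1) := Λ.comap (RM ι 1).subtype with hU
  set b := Module.finBasis (ZMod 2) (RM ι 1 ⧸ U) with hb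
  set h : ℕ := Module.finrank (ZMod 2) (RM ι 1 ⧸ U) with hh
  have hc : ∀ j : Fin h, ∃ x : RM ι 1, (Submodule.Quotient.mk x : RM ι 1 ⧸ U) = b j := fun j =>
    Submodule.Quotient.mk_surjective U (b j)
  choose c hc using hc
  refine ⟨h, fun j => (c j : Fn ι), fun j => (c j).2, ?_, ?_⟩
  · have h1 : Nat.card (RM ι 1) = Nat.card U * Nat.card (RM ι 1 ⧸ U) :=
      Submodule.card_eq_card_quotient_mul_card U
    have h2 : Nat.card (RM ι 1 ⧸ U) = 2 ^ h := by
      rw [Module.natCard_eq_pow_finrank (K := ZMod 2)]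
      rw [Nat.card_zmod]
    have h3 : Nat.card U = Nat.card Λ :=
      Nat.card_congr (Submodule.comapSubtypeEquivOfLe hΛ).toEquiv
    rw [h1, h2, h3, mul_comm]
  · intro f hf
    set x : RM ι 1 := ⟨f, hf⟩ with hx
    refine ⟨fun j => b.repr (Submodule.Quotient.mk x) j, ?_⟩
    have h1 : (Submodule.Quotient.mk x : RM ι 1 ⧸ U) =
        Submodule.Quotient.mk (∑ j, b.repr (Submodule.Quotient.mk x) j • c j) := by
      have h2 := b.sum_repr (Submodule.Quotient.mk x)
      rw [← h2]
      have h3 : ∀ y : RM ι 1, (Submodule.Quotient.mk y : RM ι 1 ⧸ U) = U.mkQ y := fun y => rfl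
      rw [h3 (∑ j, _), map_sum]
      refine Finset.sum_congr rfl fun j _ => ?_
      rw [map_smul, ← h3, hc j, h2]
    have h4 := (Submodule.Quotient.eq U).mp h1
    have h5 : f - ((∑ j, b.repr (Submodule.Quotient.mk x) j • c j : RM ι 1) : Fn ι) ∈ Λ := h4
    have h6 : ((∑ j, b.repr (Submodule.Quotient.mk x) j • c j : RM ι 1) : Fn ι) =
        ∑ j, b.repr (Submodule.Quotient.mk x) j • (c j : Fn ι) := by
      simp
    rw [h6, sub_eq_add_neg, neg_fn] at h5
    exact h5

end Pool.Agent.RHO.H48d
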