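import Pool.Agent.Helper48_RHO4.SPN

/-! # MP_ca8ef3_an, stage 3: row KIL (a functional killed by many affine functions) -/

set_option autoImplicit false

namespace Pool.Agent.RHO.H48d

open Finset

theorem acl_mem (rmb : RMBStmt) {ι : Type} [Fintype ι] [DecidableEq ι] {h : ℕ}
    (c : Fin h → Fn ι) (hc : ∀ j, c j ∈ RM ι 1) (v : Fin h → ZMod 2) : acl c v ∈ RM ι h := by
  classical
  obtain ⟨mono, mulm, monm, one, coord, -⟩ := rmb ι
  have key : ∀ s : Finset (Fin h), (fun z => ∏ j ∈ s, (c j z + v j + 1)) ∈ RM ι s.card := by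
    intro s
    induction s using Finset.induction_on with
    | empty =>
      have e : (fun z : Pt ι => ∏ j ∈ (∅ : Finset (Fin h)), (c j z + v j + 1)) = 1 := by
        funext z
        simp
      rw [e]
      exact one
    | insert a s ha ih =>
      rw [Finset.card_insert_of_notMem ha]
      have e : (fun z : Pt ι => ∏ j ∈ insert a s, (c j z + v j + 1)) =
          (c a + (v a + 1) • (1 : Fn ι)) * fun z => ∏ j ∈ s, (c j z + v j + 1) := by
        funext z
        rw [Finset.prod_insert ha]
        simp only [Pi.mul_apply, Pi.add_apply, Pi.smul_apply, Pi.one_apply, smul_eq_mul, mul_one]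
        rw [add_assoc]
      rw [e, add_comm s.card 1]
      exact mulm 1 s.card _ _ (Submodule.add_mem _ (hc a)
        (Submodule.smul_mem _ _ (mono 0 1 (Nat.zero_le _) one))) ih
  have h1 := key Finset.univ
  rw [Finset.card_univ, Fintype.card_fin] at h1
  exact h1

theorem kil (rmb : RMBStmt) (cpl : CPLStmt) (far : FARStmt) (spn : SPNStmt) :
    Pool.Agent.RHO.KILStmt := by
  intro ι _ _ D σ Λ hΛ hV hcard
  classical
  obtain ⟨h, c, hc, hch, hcβ⟩ := cpl ι Λ hΛ
  obtain ⟨mono, mulm, monm, one, coord, -⟩ := rmb ι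
  have hpos : 0 < Nat.card Λ := Nat.card_pos
  have hhD : h ≤ D := by
    have h1 : 2 ^ h * Nat.card Λ ≤ 2 ^ D * Nat.card Λ := by rw [hch]; exact hcard
    have h2 := Nat.le_of_mul_le_mul_right h1 hpos
    exact (Nat.pow_le_pow_iff_right (by norm_num)).mp h2
  have hacl : ∀ v, acl c v ∈ RM ι D := fun v => mono h D hhD (acl_mem rmb c hc v)
  -- the cells without common zeros
  have claim : ∀ v : Fin h → ZMod 2, (¬ ∃ z : Pt ι, (∀ l ∈ Λ, l z = 0) ∧ (fun j => c j z) = v) →
      pr σ (acl c v) = 0 := by
    intro v hno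
    set g : Fin h → Fn ι := fun j => c j + v j • (1 : Fn ι) with hg
    have hg1 : ∀ j, g j ∈ RM ι 1 := fun j => Submodule.add_mem _ (hc j)
      (Submodule.smul_mem _ _ (mono 0 1 (Nat.zero_le _) one))
    set Λ' : Submodule (ZMod 2) (Fn ι) := Λ ⊔ Submodule.span (ZMod 2) (Set.range g) with hΛ'
    have hle : Λ' ≤ RM ι 1 := by
      refine sup_le hΛ (Submodule.span_le.mpr ?_)
      rintro _ ⟨j, rfl⟩
      exact hg1 j
    have h1 : (1 : Fn ι) ∈ Λ' := by
      by_contra hn
      obtain ⟨z, hz⟩ := far ι Λ' hle hn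
      refine hno ⟨z, fun l hl => hz l (Submodule.mem_sup_left hl), ?_⟩
      funext j
      have h2 := hz (g j) (Submodule.mem_sup_right (Submodule.subset_span ⟨j, rfl⟩))
      have h3 : c j z + v j * 1 = 0 := h2
      rw [mul_one] at h3
      have h4 : ∀ a b : ZMod 2, a + b = 0 → a = b := by decide
      exact h4 _ _ h3
    obtain ⟨l, hl, y, hy, hly⟩ := Submodule.mem_sup.mp h1
    obtain ⟨β, hβ⟩ := (Submodule.mem_span_range_iff_exists_fun (ZMod 2)).mp hy
    have h5 : acl c v * y = 0 := by
      rw [← hβ, Finset.mul_sum]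
      refine Finset.sum_eq_zero fun j _ => ?_
      rw [mul_smul_comm]
      have h6 : acl c v * g j = 0 := by
        rw [hg]
        show acl c v * (c j + v j • (1 : Fn ι)) = 0
        rw [mul_add, mul_smul_comm, mul_one, mul_comm, mul_acl, two_fn]
      rw [h6, smul_zero]
    have h7 : acl c v = l * acl c v := by
      calc acl c v = acl c v * 1 := (mul_one _).symm
        _ = acl c v * (l + y) := by rw [hly]
        _ = acl c v * l := by rw [mul_add, h5, add_zero]
        _ = l * acl c v := mul_comm _ _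
    rw [h7, pr_mul]
    exact hV l hl _ (hacl v)
  set S : Finset (Fin h → ZMod 2) := univ.filter fun v => pr σ (acl c v) ≠ 0 with hS
  have hex : ∀ v, ∃ z : Pt ι, v ∈ S → (∀ l ∈ Λ, l z = 0) ∧ (fun j => c j z) = v := by
    intro v
    by_cases hv : v ∈ S
    · have h1 : pr σ (acl c v) ≠ 0 := (Finset.mem_filter.mp hv).2
      by_contra hn
      push Not at hn
      refine h1 (claim v ?_)
      rintro ⟨z, hz1, hz2⟩
      exact (hn z).2 hz1 hz2
    · exact ⟨0, fun h => absurd h hv⟩
  choose z hz using hex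
  have hinj : Set.InjOn z S := by
    intro v hv w hw hvw
    have h1 := (hz v hv).2
    have h2 := (hz w hw).2
    rw [← h1, ← h2, hvw]
  refine ⟨S.image z, ?_, ?_⟩
  · have h1 : (S.image z).card ≤ 2 ^ h := by
      refine Finset.card_image_le.trans ((Finset.card_le_univ S).trans ?_)
      rw [Fintype.card_fun, Fintype.card_fin, ZMod.card]
    calc (S.image z).card * Nat.card Λ ≤ 2 ^ h * Nat.card Λ := Nat.mul_le_mul_right _ h1
      _ = Nat.card (RM ι 1) := hch
  · intro f hf
    obtain ⟨b, hb1, hb2⟩ := spn ι D h σ Λ c hc hcβ hV f hf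
    have h1 : pr (σ + ind (S.image z)) f = pr σ f + pr (ind (S.image z)) f := by
      simp only [pr, Pi.add_apply, add_mul, Finset.sum_add_distrib]
    have h2 : pr (ind (S.image z)) f = ∑ v ∈ S, f (z v) := by
      have h3 : pr (ind (S.image z)) f = ∑ w, if w ∈ S.image z then f w else 0 := by
        refine Finset.sum_congr rfl fun w _ => ?_
        unfold ind
        split_ifs
        · rw [one_mul]
        · rw [zero_mul]
      rw [h3, ← Finset.sum_filter, Finset.filter_mem_eq_inter, Finset.univ_inter,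
        Finset.sum_image hinj]
    have h4 : pr σ f = ∑ v ∈ S, f (z v) := by
      rw [hb2, ← Finset.sum_subset (Finset.subset_univ S)]
      · refine Finset.sum_congr rfl fun v hv => ?_
        have h5 : pr σ (acl c v) ≠ 0 := (Finset.mem_filter.mp hv).2
        have h6 : ∀ a : ZMod 2, a ≠ 0 → a = 1 := by decide
        rw [h6 _ h5, mul_one, hb1 (z v) (hz v hv).1, (hz v hv).2]
      · intro v _ hv
        have h5 : pr σ (acl c v) = 0 := by
          by_contra hn
          exact hv (Finset.mem_filter.mpr ⟨Finset.mem_univ v, hn⟩)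
        rw [h5, mul_zero]
    rw [h1, h2, h4]
    have h7 : ∀ a : ZMod 2, a + a = 0 := by decide
    exact h7 _

end Pool.Agent.RHO.H48d
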