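import Pool.Agent.RHO.Stmts4

/-! # MP_ca8ef3_an, stage 3: row SPN (spanning) -/

set_option autoImplicit false

namespace Pool.Agent.RHO.H48d

open Finset

theorem two_fn {ι : Type} (y : Fn ι) : y + y = 0 := by
  funext z
  have h : ∀ a : ZMod 2, a + a = 0 := by decide
  exact h (y z)

theorem acl_ap {ι : Type} {h : ℕ} (c : Fin h → Fn ι) (v : Fin h → ZMod 2) (z : Pt ι) :
    acl c v z = if (fun j => c j z) = v then 1 else 0 := by
  classical
  unfold acl
  split_ifs with hv
  · subst hv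
    refine Finset.prod_eq_one fun j _ => ?_
    have h : ∀ a : ZMod 2, a + a + 1 = 1 := by decide
    exact h _
  · obtain ⟨j, hj⟩ := Function.ne_iff.mp hv
    refine Finset.prod_eq_zero (Finset.mem_univ j) ?_
    have h : ∀ a b : ZMod 2, a ≠ b → a + b + 1 = 0 := by decide
    exact h _ _ hj

theorem sum_acl {ι : Type} {h : ℕ} (c : Fin h → Fn ι) :
    ∑ v : Fin h → ZMod 2, acl c v = 1 := by
  classical
  funext z
  rw [Finset.sum_apply, Finset.sum_congr rfl fun v _ => acl_ap c v z, Finset.sum_ite_eq,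
    if_pos (Finset.mem_univ _)]
  rfl

theorem mul_acl {ι : Type} {h : ℕ} (c : Fin h → Fn ι) (v : Fin h → ZMod 2) (j : Fin h) :
    c j * acl c v = v j • acl c v := by
  classical
  funext z
  rw [Pi.mul_apply, Pi.smul_apply, acl_ap, smul_eq_mul]
  split_ifs with hv
  · rw [← hv]
  · rw [mul_zero, mul_zero]

theorem pr_add {ι : Type} [Fintype ι] [DecidableEq ι] (σ f g : Fn ι) :
    pr σ (f + g) = pr σ f + pr σ g := by
  simp only [pr, Pi.add_apply, mul_add, Finset.sum_add_distrib]

theorem pr_smul {ι : Type} [Fintype ι] [DecidableEq ι] (σ f : Fn ι) (a : ZMod 2) :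
    pr σ (a • f) = a * pr σ f := by
  simp only [pr, Pi.smul_apply, smul_eq_mul, Finset.mul_sum]
  refine Finset.sum_congr rfl fun z _ => ?_
  ring

theorem pr_zero {ι : Type} [Fintype ι] [DecidableEq ι] (σ : Fn ι) : pr σ 0 = 0 := by
  simp [pr]

theorem pr_sum {ι κ : Type} [Fintype ι] [DecidableEq ι] (σ : Fn ι) (s : Finset κ)
    (f : κ → Fn ι) : pr σ (∑ k ∈ s, f k) = ∑ k ∈ s, pr σ (f k) := by
  classical
  induction s using Finset.induction_on with
  | empty => simp [pr_zero]
  | insert a s ha ih => rw [Finset.sum_insert ha, Finset.sum_insert ha, pr_add, ih]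

theorem pr_mul {ι : Type} [Fintype ι] [DecidableEq ι] (σ l p : Fn ι) :
    pr σ (l * p) = pr (σ * l) p := by
  simp only [pr, Pi.mul_apply, mul_assoc]

/-- the products of elements of `Λ` and of polynomials of degree less than `e` -/
def Ne {ι : Type} (Λ : Submodule (ZMod 2) (Fn ι)) (e : ℕ) : Submodule (ZMod 2) (Fn ι) :=
  Submodule.span (ZMod 2) {g | ∃ l ∈ Λ, ∃ d, d + 1 ≤ e ∧ ∃ p ∈ RM ι d, g = l * p}

theorem mul_Ne (rmb : RMBStmt) {ι : Type} [Fintype ι] [DecidableEq ι]
    (Λ : Submodule (ZMod 2) (Fn ι)) (e : ℕ) (c : Fn ι) (hc : c ∈ RM ι 1) (g : Fn ι)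
    (hg : g ∈ Ne Λ e) : c * g ∈ Ne Λ (e + 1) := by
  obtain ⟨-, mulm, -⟩ := rmb ι
  induction hg using Submodule.span_induction with
  | mem g hg =>
    obtain ⟨l, hl, d, hd, p, hp, rfl⟩ := hg
    refine Submodule.subset_span ⟨l, hl, 1 + d, by omega, c * p, mulm 1 d c p hc hp, ?_⟩
    rw [← mul_assoc, ← mul_assoc, mul_comm c l]
  | zero => rw [mul_zero]; exact Submodule.zero_mem _
  | add x y _ _ hx hy => rw [mul_add]; exact Submodule.add_mem _ hx hy
  | smul a x _ hx => rw [mul_smul_comm]; exact Submodule.smul_mem _ a hx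

theorem spn_mon (rmb : RMBStmt) {ι : Type} [Fintype ι] [DecidableEq ι] {h : ℕ}
    (Λ : Submodule (ZMod 2) (Fn ι)) (c : Fin h → Fn ι) (hc : ∀ j, c j ∈ RM ι 1)
    (hΛ : ∀ f ∈ RM ι 1, ∃ β : Fin h → ZMod 2, f + ∑ j, β j • c j ∈ Λ) (A : Finset ι) :
    ∀ e, A.card ≤ e → ∃ b : (Fin h → ZMod 2) → ZMod 2,
      (∀ z : Pt ι, (∀ l ∈ Λ, l z = 0) → mon A z = b (fun j => c j z)) ∧
      mon A + ∑ v, b v • acl c v ∈ Ne Λ e := by
  obtain ⟨mono, mulm, monm, one, coord, -⟩ := rmb ι
  induction A using Finset.induction_on with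
  | empty =>
    intro e _
    refine ⟨fun _ => 1, fun z _ => by simp [mon], ?_⟩
    have h1 : (mon ∅ : Fn ι) = 1 := by
      funext z
      simp [mon]
    have h2 : ∑ v : Fin h → ZMod 2, (1 : ZMod 2) • acl c v = 1 := by
      rw [← sum_acl c]
      exact Finset.sum_congr rfl fun v _ => one_smul _ _
    rw [h1, h2, two_fn]
    exact Submodule.zero_mem _
  | insert i A hi ih =>
    intro e he
    rw [Finset.card_insert_of_notMem hi] at he
    obtain ⟨e', rfl⟩ : ∃ e', e = e' + 1 := ⟨e - 1, by omega⟩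
    obtain ⟨b, hb1, hb2⟩ := ih e' (by omega)
    obtain ⟨β, hβ⟩ := hΛ (fun z : Pt ι => z i) (coord i)
    set X : Fn ι := fun z => z i with hX
    set Y : Fn ι := ∑ j, β j • c j with hY
    set m' : Fn ι := mon A + ∑ v, b v • acl c v with hm'
    have hmon : mon (insert i A) = X * mon A := by
      funext z
      simp only [mon, Pi.mul_apply, hX]
      rw [Finset.prod_insert hi]
    have hYa : ∀ v, Y * acl c v = (∑ j, β j * v j) • acl c v := by
      intro v
      rw [hY, Finset.sum_mul, Finset.sum_smul]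
      refine Finset.sum_congr rfl fun j _ => ?_
      rw [smul_mul_assoc, mul_acl, smul_smul]
    have hYz : ∀ z, Y z = ∑ j, β j * c j z := by
      intro z
      rw [hY, Finset.sum_apply]
      exact Finset.sum_congr rfl fun j _ => rfl
    refine ⟨fun v => (∑ j, β j * v j) * b v, ?_, ?_⟩
    · intro z hz
      rw [hmon, Pi.mul_apply, hb1 z hz]
      have h1 := hz _ hβ
      have h2 : X z + Y z = 0 := h1
      have h3 : ∀ a b : ZMod 2, a + b = 0 → a = b := by decide
      rw [h3 _ _ h2, hYz]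
    · have e1 : mon (insert i A) + ∑ v, ((∑ j, β j * v j) * b v) • acl c v =
          (X + Y) * mon A + ∑ j, β j • (c j * m') := by
        have e2 : ∑ v, ((∑ j, β j * v j) * b v) • acl c v = Y * ∑ v, b v • acl c v := by
          rw [Finset.mul_sum]
          refine Finset.sum_congr rfl fun v _ => ?_
          rw [mul_smul_comm, hYa, smul_smul, mul_comm]
        have e3 : ∑ j, β j • (c j * m') = Y * m' := by
          rw [hY, Finset.sum_mul]
          exact Finset.sum_congr rfl fun j _ => (smul_mul_assoc _ _ _).symm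
        rw [e2, e3, hm', hmon, mul_add, add_mul]
        have e4 : Y * mon A + Y * mon A = 0 := two_fn _
        calc X * mon A + Y * ∑ v, b v • acl c v
            = X * mon A + (Y * mon A + Y * mon A) + Y * ∑ v, b v • acl c v := by
              rw [e4, add_zero]
          _ = _ := by ring
      rw [e1]
      refine Submodule.add_mem _ ?_ (Submodule.sum_mem _ fun j _ => Submodule.smul_mem _ _ ?_)
      · exact Submodule.subset_span ⟨X + Y, hβ, e', le_rfl, mon A,
          mono A.card e' (by omega) (monm A), rfl⟩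
      · exact mul_Ne rmb Λ e' (c j) (hc j) m' hb2

theorem spn (rmb : RMBStmt) : Pool.Agent.RHO.SPNStmt := by
  intro ι _ _ D h σ Λ c hc hΛ hV f hf
  have hN : ∀ g ∈ Ne Λ (D + 1), pr σ g = 0 := by
    intro g hg
    induction hg using Submodule.span_induction with
    | mem g hg =>
      obtain ⟨l, hl, d, hd, p, hp, rfl⟩ := hg
      rw [pr_mul]
      exact hV l hl p ((rmb ι).1 d D (by omega) hp)
    | zero => exact pr_zero σ
    | add x y _ _ hx hy => rw [pr_add, hx, hy, add_zero]
    | smul a x _ hx => rw [pr_smul, hx, mul_zero]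
  induction hf using Submodule.span_induction with
  | mem f hf =>
    obtain ⟨A, hA, rfl⟩ := hf
    obtain ⟨b, hb1, hb2⟩ := spn_mon rmb Λ c hc hΛ A (D + 1) hA
    refine ⟨b, hb1, ?_⟩
    have h1 := hN _ hb2
    rw [pr_add, pr_sum, Finset.sum_congr rfl fun v _ => pr_smul σ (acl c v) (b v)] at h1
    have h3 : ∀ a b : ZMod 2, a + b = 0 → a = b := by decide
    exact h3 _ _ h1
  | zero =>
    refine ⟨fun _ => 0, fun z _ => rfl, ?_⟩
    rw [pr_zero]
    simp
  | add x y _ _ hx hy =>
    obtain ⟨b1, hb1, hb1'⟩ := hx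
    obtain ⟨b2, hb2, hb2'⟩ := hy
    refine ⟨fun v => b1 v + b2 v, fun z hz => ?_, ?_⟩
    · rw [Pi.add_apply, hb1 z hz, hb2 z hz]
    · rw [pr_add, hb1', hb2', ← Finset.sum_add_distrib]
      exact Finset.sum_congr rfl fun v _ => (add_mul _ _ _).symm
  | smul a x _ hx =>
    obtain ⟨b1, hb1, hb1'⟩ := hx
    refine ⟨fun v => a * b1 v, fun z hz => ?_, ?_⟩
    · rw [Pi.smul_apply, hb1 z hz, smul_eq_mul]
    · rw [pr_smul, hb1', Finset.mul_sum]
      exact Finset.sum_congr rfl fun v _ => (mul_assoc _ _ _).symm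

end Pool.Agent.RHO.H48d
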